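import Pool.Agent.N561.AX.Stm
import Pool.Agent.W303.AX.UX1

/-!
# AX/2: the expansion of the lower half of the kernel on all of `GG` (project AX of helper561)
-/

set_option autoImplicit false

namespace Pool.Agent.N861.AX

open Finset Filter Topology Metric
open Pool.Agent.W711.HT hiding XX S_CONT
open Pool.Agent.TH563.V
open Pool.Agent.N561
open Pool.Agent.N561.AX
open Pool.Agent.W719.AX (UX S_UXAN)
open scoped Real

/-! ### The region `GG` -/

lemma mem_GG {z : ℂ} : z ∈ GG ↔ |z.re| < 33 / 16 ∧ 0 < z.im ∧ z.im < 39 / 20 ∧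
    -1 < Real.cos z.re * Real.cosh z.im := Iff.rfl

lemma hor {φ : ℂ} (hφ : φ ∈ GG) : segment ℝ φ (φ.im * Complex.I) ⊆ GG := by
  rintro z ⟨a, b, ha, hb, hab, rfl⟩
  obtain ⟨h1, h2, h3, h4⟩ := hφ
  have hre : (a • φ + b • ((φ.im : ℂ) * Complex.I)).re = a * φ.re := by simp
  have him : (a • φ + b • ((φ.im : ℂ) * Complex.I)).im = φ.im := by
    simp only [Complex.add_im, Complex.real_smul, Complex.mul_im, Complex.ofReal_re,
      Complex.ofReal_im, Complex.I_re, Complex.I_im, mul_zero, mul_one, zero_mul, add_zero]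
    rw [← add_mul, hab, one_mul]
  have ha1 : a ≤ 1 := by linarith
  have hle : |a * φ.re| ≤ |φ.re| := by
    rw [abs_mul, abs_of_nonneg ha]
    exact mul_le_of_le_one_left (abs_nonneg _) ha1
  rw [mem_GG, hre, him]
  refine ⟨hle.trans_lt h1, h2, h3, h4.trans_le ?_⟩
  refine mul_le_mul_of_nonneg_right ?_ (Real.cosh_pos _).le
  rw [← Real.cos_abs φ.re, ← Real.cos_abs (a * φ.re)]
  refine Real.cos_le_cos_of_nonneg_of_le_pi (abs_nonneg _) ?_ hle
  have := Real.pi_gt_three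
  linarith

lemma ver {y y' : ℝ} (hy : 0 < y ∧ y < 39 / 20) (hy' : 0 < y' ∧ y' < 39 / 20) :
    segment ℝ ((y : ℂ) * Complex.I) ((y' : ℂ) * Complex.I) ⊆ GG := by
  rintro z ⟨a, b, ha, hb, hab, rfl⟩
  have hre : (a • ((y : ℂ) * Complex.I) + b • ((y' : ℂ) * Complex.I)).re = 0 := by simp
  have him : (a • ((y : ℂ) * Complex.I) + b • ((y' : ℂ) * Complex.I)).im = a * y + b * y' := by
    simp
  rw [mem_GG, hre, him]
  refine ⟨by norm_num, ?_, ?_, ?_⟩
  · rcases ha.eq_or_lt with h | h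
    · subst h
      have : b = 1 := by linarith
      subst this
      linarith [hy'.1]
    · nlinarith [mul_pos h hy.1, mul_nonneg hb hy'.1.le]
  · have h1 : a * y + b * y' ≤ max y y' := by
      calc a * y + b * y' ≤ a * max y y' + b * max y y' :=
            add_le_add (mul_le_mul_of_nonneg_left (le_max_left _ _) ha)
              (mul_le_mul_of_nonneg_left (le_max_right _ _) hb)
        _ = max y y' := by rw [← add_mul, hab, one_mul]
    exact h1.trans_lt (max_lt hy.2 hy'.2)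
  · rw [Real.cos_zero, one_mul]
    linarith [Real.cosh_pos (a * y + b * y')]

theorem preconn_GG : IsPreconnected GG := by
  have h1 : ((1 : ℝ) : ℂ) * Complex.I ∈ GG :=
    ver (y := 1) (y' := 1) (by norm_num) (by norm_num) (left_mem_segment ℝ _ _)
  refine isPreconnected_of_forall (((1 : ℝ) : ℂ) * Complex.I) fun φ hφ => ?_
  refine ⟨segment ℝ (((1 : ℝ) : ℂ) * Complex.I) ((φ.im : ℂ) * Complex.I) ∪
    segment ℝ φ (φ.im * Complex.I), ?_, ?_, ?_, ?_⟩
  · exact Set.union_subset (ver (by norm_num) ⟨hφ.2.1, hφ.2.2.1⟩) (hor hφ)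
  · exact Or.inl (left_mem_segment ℝ _ _)
  · exact Or.inr (left_mem_segment ℝ _ _)
  · exact IsPreconnected.union _ (right_mem_segment ℝ _ _) (right_mem_segment ℝ _ _)
      (convex_segment _ _).isPreconnected (convex_segment _ _).isPreconnected

/-! ### General lemmas -/

lemma ux_comp {E E' : Type} {Y : ℕ → E → ℂ} {A : ℕ → E → ℂ} {S : Set E} {T : Set E'} {f : E' → E}
    (h : UX Y A S) (hf : ∀ x ∈ T, f x ∈ S) :
    UX (fun N x => Y N (f x)) (fun n x => A n (f x)) T := by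
  intro K
  obtain ⟨C, hC⟩ := h K
  refine ⟨C, ?_⟩
  filter_upwards [hC] with N hN x hx
  exact hN _ (hf x hx)

lemma ux_cont {Y : ℕ → ℂ × ℂ → ℂ} {A : ℕ → ℂ × ℂ → ℂ} {S : Set (ℂ × ℂ)}
    (h : UX Y A S) (hY : ∀ N, ContinuousOn (Y N) S) : ContinuousOn (A 0) S := by
  obtain ⟨C, hC⟩ := h 1
  have ht : TendstoUniformlyOn Y (A 0) atTop S := by
    rw [Metric.tendstoUniformlyOn_iff]
    intro ε hε
    have h0 : Tendsto (fun N : ℕ => C / (N : ℝ) ^ 1) atTop (𝓝 0) := by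
      simp only [pow_one]
      exact tendsto_const_div_atTop_nhds_zero_nat C
    filter_upwards [hC, h0.eventually_lt_const hε] with N hN hN' x hx
    have h1 := hN x hx
    simp only [sum_range_one, pow_zero, div_one] at h1
    rw [dist_comm, dist_eq_norm]
    exact h1.trans_lt hN'
  exact ht.continuousOn (Eventually.frequently (Eventually.of_forall hY))

lemma isOpen_Rc (ρ τ : ℝ) : IsOpen (Rc ρ τ) := by
  have h1 : IsOpen {z : ℂ | |z.re| < ρ} :=
    isOpen_lt (Complex.continuous_re.abs) continuous_const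
  have h2 : IsOpen {z : ℂ | |z.im| < τ} :=
    isOpen_lt (Complex.continuous_im.abs) continuous_const
  exact h1.inter h2

lemma Rc_mono {ρ ρ' : ℝ} (h : ρ ≤ ρ') : Rc ρ ρ ⊆ Rc ρ' ρ' := fun _ hz =>
  ⟨hz.1.trans_le h, hz.2.trans_le h⟩

/-- closed square -/
def Kc (ρ : ℝ) : Set ℂ := {z | |z.re| ≤ ρ ∧ |z.im| ≤ ρ}

lemma isCompact_Kc (ρ : ℝ) : IsCompact (Kc ρ) := by
  have h1 : IsClosed (Kc ρ) := by
    have h1 : IsClosed {z : ℂ | |z.re| ≤ ρ} :=
      isClosed_le (Complex.continuous_re.abs) continuous_const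
    have h2 : IsClosed {z : ℂ | |z.im| ≤ ρ} :=
      isClosed_le (Complex.continuous_im.abs) continuous_const
    exact h1.inter h2
  refine Metric.isCompact_of_isClosed_isBounded h1 ?_
  rw [isBounded_iff_forall_norm_le]
  refine ⟨ρ + ρ, fun z hz => ?_⟩
  exact (Complex.norm_le_abs_re_add_abs_im z).trans (add_le_add hz.1 hz.2)

/-! ### The kernel -/

lemma k0_cont (N : ℕ) : Continuous (fun x : ℂ × ℂ => k0 N x.1 x.2) := by
  unfold k0 Rp
  refine continuous_finsetSum _ fun d _ => ?_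
  refine Continuous.div_const ?_ _
  refine Continuous.mul ?_ ?_
  · refine continuous_finsetProd _ fun j _ => ?_
    exact (continuous_const.mul (Complex.continuous_cos.comp continuous_fst)).add continuous_const
  · refine continuous_finsetProd _ fun j _ => ?_
    exact (continuous_const.mul (Complex.continuous_cos.comp continuous_snd)).add continuous_const

lemma Rp_diff (N d : ℕ) : Differentiable ℂ (Rp N d) := by
  unfold Rp
  refine Differentiable.fun_finsetProd fun j _ => ?_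
  exact ((differentiable_const _).mul Complex.differentiable_cos).add (differentiable_const _)

lemma k0_diff1 (N : ℕ) (p : ℂ) : Differentiable ℂ (fun w => k0 N w p) := by
  unfold k0
  refine Differentiable.fun_sum fun d _ => ?_
  exact ((Rp_diff N d).mul (differentiable_const _)).div_const _

lemma k0_diff2 (N : ℕ) (p : ℂ) : Differentiable ℂ (fun w => k0 N p w) := by
  unfold k0
  refine Differentiable.fun_sum fun d _ => ?_
  exact ((differentiable_const _).mul (Rp_diff N d)).div_const _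

/-! ### Continuation -/

lemma loc (hC : S_CONT) (hN : S_NEAR) (hG : S_SGP) (hUA : S_UXAN) {φs : ℂ} (hφ : φs ∈ GG) :
    ∃ δ : ℝ, 0 < δ ∧ ∀ φ₁ ∈ ball φs δ, KXAt φ₁ → ∀ φ₂ ∈ ball φs δ, KXAt φ₂ := by
  obtain ⟨r₁, hr₁, hsub₁, hlog⟩ := hN φs hφ
  obtain ⟨r₂, c, C, H⟩ := hG φs hφ
  obtain ⟨r, hr⟩ : ∃ r, r = min r₁ r₂ := ⟨_, rfl⟩
  have hr0 : 0 < r := by rw [hr]; exact lt_min hr₁ H.hr.1
  have hrr₁ : r ≤ r₁ := by rw [hr]; exact min_le_left _ _
  have hrr₂ : r ≤ r₂ := by rw [hr]; exact min_le_right _ _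
  refine ⟨r / 8, by positivity, fun φ₁ h₁ hK φ₂ h₂ => ?_⟩
  obtain ⟨ρ₂, v, A, hv, hvG, K⟩ := hK
  obtain ⟨s₀, hs₀⟩ : ∃ s₀, s₀ = min r ρ₂ := ⟨_, rfl⟩
  have hs₀0 : 0 < s₀ := by rw [hs₀]; exact lt_min hr0 K.hρ
  have hs₀r : s₀ ≤ r := by rw [hs₀]; exact min_le_left _ _
  have hs₀ρ : s₀ ≤ ρ₂ := by rw [hs₀]; exact min_le_right _ _
  obtain ⟨v₀, hv₀⟩ : ∃ v₀, v₀ = min v (r / 8) := ⟨_, rfl⟩
  have hv₀0 : 0 < v₀ := by rw [hv₀]; exact lt_min hv (by positivity)
  have hv₀v : v₀ ≤ v := by rw [hv₀]; exact min_le_left _ _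
  have hv₀r : v₀ ≤ r / 8 := by rw [hv₀]; exact min_le_right _ _
  have hd₁ : dist φ₁ φs < r / 8 := mem_ball.1 h₁
  have hd₂ : dist φ₂ φs < r / 8 := mem_ball.1 h₂
  have hB1 : ball φ₁ (r / 2) ⊆ ball φs r := ball_subset_ball' (by linarith)
  have hB2 : ball φ₂ (r / 8) ⊆ ball φ₁ (3 * r / 8) := by
    refine ball_subset_ball' ?_
    have := dist_triangle_right φ₂ φ₁ φs
    linarith
  -- the functions
  have hsan : ContinuousOn (fun x : ℂ × ℂ => sg x.1 x.2) (Rc r r ×ˢ ball φs r) :=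
    H.san.continuousOn.mono (Set.prod_mono (Rc_mono hrr₂) (ball_subset_ball hrr₂))
  have hs1 : ∀ p ∈ ball φs r, DifferentiableOn ℂ (fun w => sg w p) (Rc r r) := by
    intro p hp
    refine H.san.comp (f := fun w : ℂ => (w, p)) ?_ ?_
    · exact (differentiable_id.prodMk (differentiable_const p)).differentiableOn
    · intro w hw
      exact ⟨Rc_mono hrr₂ hw, ball_subset_ball hrr₂ hp⟩
  have hs2 : ∀ w ∈ Rc r r, DifferentiableOn ℂ (fun p => sg w p) (ball φs r) := by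
    intro w hw
    refine H.san.comp (f := fun p : ℂ => (w, p)) ?_ ?_
    · exact ((differentiable_const w).prodMk differentiable_id).differentiableOn
    · intro p hp
      exact ⟨Rc_mono hrr₂ hw, ball_subset_ball hrr₂ hp⟩
  -- the lower bound for the first coefficient
  have hW : Rc s₀ s₀ ×ˢ ball φ₁ v₀ ⊆ Rc ρ₂ ρ₂ ×ˢ ball φ₁ v :=
    Set.prod_mono (Rc_mono hs₀ρ) (ball_subset_ball hv₀v)
  have hW2 : Rc s₀ s₀ ×ˢ ball φ₁ v₀ ⊆ Rc r r ×ˢ ball φs r :=
    Set.prod_mono (Rc_mono hs₀r) ((ball_subset_ball (by linarith)).trans hB1)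
  have hA0 : ContinuousOn (A 0) (Rc s₀ s₀ ×ˢ ball φ₁ v₀) := by
    refine ux_cont (ux_comp (f := id) (T := Rc s₀ s₀ ×ˢ ball φ₁ v₀) K.ux fun x hx => hW hx) ?_
    intro N
    refine ContinuousOn.mul (ContinuousOn.mul continuousOn_const ?_) (k0_cont N).continuousOn
    exact Complex.continuous_exp.comp_continuousOn
      (ContinuousOn.neg (continuousOn_const.mul (hsan.mono hW2)))
  obtain ⟨s, hs⟩ : ∃ s, s = s₀ / 2 := ⟨_, rfl⟩
  have hs0 : 0 < s := by rw [hs]; positivity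
  have hss : s < s₀ := by rw [hs]; linarith
  have hcomp : IsCompact (Kc s ×ˢ closedBall φ₁ (v₀ / 2)) :=
    (isCompact_Kc s).prod (isCompact_closedBall _ _)
  have hcsub : Kc s ×ˢ closedBall φ₁ (v₀ / 2) ⊆ Rc s₀ s₀ ×ˢ ball φ₁ v₀ :=
    Set.prod_mono (fun z hz => ⟨hz.1.trans_lt hss, hz.2.trans_lt hss⟩)
      (closedBall_subset_ball (by linarith))
  obtain ⟨x₀, hx₀, hmin⟩ := hcomp.exists_isMinOn (f := fun x => ‖A 0 x‖)
    ⟨(0, φ₁), ⟨by simp [Kc, hs0.le], mem_closedBall_self (by positivity)⟩⟩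
    (hA0.mono hcsub).norm
  have hc₀ : 0 < ‖A 0 x₀‖ := norm_pos_iff.2 (K.nz x₀ (hW (hcsub hx₀)))
  have hRK : Rc s s ⊆ Kc s := fun z hz => ⟨hz.1.le, hz.2.le⟩
  have hRr : Rc s s ⊆ Rc r r := Rc_mono (by linarith)
  -- continuation
  obtain ⟨A', c₁, hc₁, hux, hd, hlow⟩ := hC φ₁ (v₀ / 2) (3 * r / 8) (r / 2) (by positivity)
    (by linarith) (by linarith) ℂ (Rc s s) (fun N x => k0 N x.2 x.1) (fun x => sg x.2 x.1)
    (fun N => (((Real.sqrt N) ^ 3 : ℝ) : ℂ)) C ‖A 0 x₀‖ (fun n x => A n (x.2, x.1))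
    (Eventually.of_forall fun N q _ => (k0_diff2 N q).differentiableOn)
    (fun q hq => (hs2 q (hRr hq)).mono hB1)
    (fun x hx => H.sbd x.2 (Rc_mono hrr₂ (hRr hx.2)) x.1 (ball_subset_ball hrr₂ (hB1 hx.1)))
    (fun ε hε => by
      filter_upwards [hlog ε hε] with N hN x hx
      exact hN x.2 (Rc_mono hrr₁ (hRr hx.2)) x.1 (ball_subset_ball hrr₁ (hB1 hx.1)))
    (ux_comp (f := fun x : ℂ × ℂ => (x.2, x.1)) K.ux fun x hx =>
      hW (hcsub ⟨hRK hx.2, ball_subset_closedBall hx.1⟩))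
    hc₀
    (fun x hx => hmin (show (x.2, x.1) ∈ Kc s ×ˢ closedBall φ₁ (v₀ / 2) from
      ⟨hRK hx.2, ball_subset_closedBall hx.1⟩))
  have hux2 : UX (fun (N : ℕ) (x : ℂ × ℂ) => ((Real.sqrt N) ^ 3 : ℝ) *
      Complex.exp (-(N * sg x.1 x.2)) * k0 N x.1 x.2) (fun n x => A' n (x.2, x.1))
      (Rc s s ×ˢ ball φ₂ (r / 8)) :=
    ux_comp (f := fun x : ℂ × ℂ => (x.2, x.1)) hux fun x hx => ⟨hB2 hx.2, hx.1⟩
  refine ⟨s, r / 8, fun n x => A' n (x.2, x.1), by positivity, ?_, ?_⟩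
  · refine (hB2.trans ?_).trans H.sub
    exact ((ball_subset_ball (by linarith)).trans hB1).trans (ball_subset_ball hrr₂)
  · refine ⟨hs0, hs0, isOpen_ball, hux2, ?_, ?_⟩
    · intro n p hp
      have hp' : p ∈ ball φs r := hB1 ((ball_subset_ball (by linarith)) (hB2 hp))
      refine hUA (fun N w => (((Real.sqrt N) ^ 3 : ℝ) : ℂ) * Complex.exp (-(N * sg w p)) *
        k0 N w p) (fun n w => A' n (p, w)) (Rc s s) (isOpen_Rc s s) ?_ ?_ n
      · refine Eventually.of_forall fun N => ?_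
        refine DifferentiableOn.mul (DifferentiableOn.mul (differentiableOn_const _) ?_)
          (k0_diff1 N p).differentiableOn
        exact (((hs1 p hp').mono hRr).const_mul _).neg.cexp
      · exact ux_comp (f := fun w : ℂ => (w, p)) hux2 fun w hw => ⟨hw, hp⟩
    · rintro ⟨w, p⟩ ⟨hw, hp⟩ h0
      have := hlow (p, w) ⟨hB2 hp, hw⟩
      simp only at h0
      rw [h0, norm_zero] at this
      linarith

/-- AX/2 -/
theorem kxs (hC : S_CONT) (hN : Pool.Agent.N561.S_NEAR) (hG : Pool.Agent.N561.S_SGP)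
    (hB : S_KXB) : S_KXS := by
  obtain ⟨η, hη, hK⟩ := hB
  intro φ₀ hφ₀
  refine preconn_GG.induction₂' (fun x y => KXAt x → KXAt y) ?_ ?_ hη hφ₀ hK
  · intro x hx
    obtain ⟨δ, hδ, h⟩ := loc hC hN hG Pool.Agent.W303.AX.uxan hx
    filter_upwards [nhdsWithin_le_nhds (ball_mem_nhds x hδ)] with y hy
    exact ⟨fun hx' => h x (mem_ball_self hδ) hx' y hy,
      fun hy' => h y hy hy' x (mem_ball_self hδ)⟩
  · intro x y z _ _ _ h1 h2 h3
    exact h2 (h1 h3)

end Pool.Agent.N861.AX
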